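import Pool.Agent.BEL.StmtsD

/-!
# Squad BEL, row LGD: from the counting to the lower logarithmic density
-/

set_option autoImplicit false

namespace Pool.Agent.BEL.H82

open MeasureTheory Filter Topology Set

theorem meas (al c'' : ℝ) (f : ℝ → ℝ) (hf : AntitoneOn f (Ici 0)) :
    MeasurableSet ({t : ℝ | c'' * t ^ (-(2 / al)) ≤ f t ^ 2} ∩ Ici 0) := by
  have hm : Measurable fun t => f (max t 0) := by
    refine Antitone.measurable ?_
    intro a b hab
    exact hf (mem_Ici.2 (le_max_right _ _)) (mem_Ici.2 (le_max_right _ _)) (max_le_max hab le_rfl)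
  have h1 : MeasurableSet {t : ℝ | c'' * t ^ (-(2 / al)) ≤ f (max t 0) ^ 2} := by
    refine measurableSet_le ?_ (hm.pow_const 2)
    exact (measurable_id.pow_const _).const_mul _
  have h2 : {t : ℝ | c'' * t ^ (-(2 / al)) ≤ f t ^ 2} ∩ Ici 0 =
      {t : ℝ | c'' * t ^ (-(2 / al)) ≤ f (max t 0) ^ 2} ∩ Ici 0 := by
    ext t
    simp only [mem_inter_iff, Set.mem_ofPred_eq, mem_Ici]
    constructor
    · rintro ⟨h, h0⟩
      rw [max_eq_left h0]
      exact ⟨h, h0⟩
    · rintro ⟨h, h0⟩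
      rw [max_eq_left h0] at h
      exact ⟨h, h0⟩
  rw [h2]
  exact h1.inter measurableSet_Ici

theorem intInd (A : Set ℝ) (hA : MeasurableSet (A ∩ Ici 0)) (a b : ℝ) (ha : 1 ≤ a) (hab : a ≤ b) :
    IntervalIntegrable (A.indicator fun s : ℝ => s⁻¹) volume a b := by
  rw [intervalIntegrable_iff_integrableOn_Ioc_of_le hab]
  have h1 : IntegrableOn (fun s : ℝ => s⁻¹) (Ioc a b) volume := by
    have h2 : ContinuousOn (fun s : ℝ => s⁻¹) (Icc a b) := by
      refine continuousOn_id.inv₀ fun x hx => ?_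
      have : (1 : ℝ) ≤ x := ha.trans hx.1
      show x ≠ 0
      linarith
    exact (h2.integrableOn_Icc).mono_set Ioc_subset_Icc_self
  have h2 : IntegrableOn ((A ∩ Ici 0).indicator fun s : ℝ => s⁻¹) (Ioc a b) volume :=
    Integrable.indicator h1 hA
  refine h2.congr_fun ?_ measurableSet_Ioc
  intro t ht
  have h0 : (0 : ℝ) ≤ t := by linarith [ht.1]
  by_cases htA : t ∈ A
  · rw [indicator_of_mem (show t ∈ A ∩ Ici 0 from ⟨htA, h0⟩), indicator_of_mem htA]
  · rw [indicator_of_notMem (fun h => htA h.1), indicator_of_notMem htA]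

theorem indNonneg (A : Set ℝ) (t : ℝ) (ht : 0 ≤ t) : 0 ≤ A.indicator (fun s : ℝ => s⁻¹) t := by
  by_cases htA : t ∈ A
  · rw [indicator_of_mem htA]
    exact inv_nonneg.2 ht
  · rw [indicator_of_notMem htA]

theorem monoInt (A : Set ℝ) (hA : MeasurableSet (A ∩ Ici 0)) (a b c d : ℝ) (hc : 1 ≤ c)
    (hca : c ≤ a) (hab : a ≤ b) (hbd : b ≤ d) :
    (∫ t in a..b, A.indicator (fun s : ℝ => s⁻¹) t) ≤
      ∫ t in c..d, A.indicator (fun s : ℝ => s⁻¹) t := by
  refine intervalIntegral.integral_mono_interval hca hab hbd ?_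
    (intInd A hA c d hc (hca.trans (hab.trans hbd)))
  refine (ae_restrict_iff' measurableSet_Ioc).2 (Eventually.of_forall fun t ht => ?_)
  exact indNonneg A t (by linarith [ht.1])

theorem block (A : Set ℝ) (hA : MeasurableSet (A ∩ Ici 0)) (m k : ℕ) (hm : 2 ≤ m)
    (hk : ∀ t : ℝ, (2 : ℝ) ^ (m * (k + 1) - 1) ≤ t → t ≤ (2 : ℝ) ^ (m * (k + 1)) - 1 → t ∈ A) :
    Real.log (3 / 2) ≤
      ∫ t in ((2 : ℝ) ^ (m * k))..((2 : ℝ) ^ (m * (k + 1))), A.indicator (fun s : ℝ => s⁻¹) t := by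
  obtain ⟨M, hM⟩ : ∃ M, m * (k + 1) = M + 1 := ⟨m * (k + 1) - 1, by
    have : 1 ≤ m * (k + 1) := Nat.mul_pos (by omega) (by omega)
    omega⟩
  have hM1 : 1 ≤ M := by
    have : 2 * 1 ≤ m * (k + 1) := Nat.mul_le_mul hm (by omega)
    omega
  have hkM : m * k ≤ M := by
    have : m * (k + 1) = m * k + m := by ring
    omega
  rw [hM] at hk ⊢
  rw [Nat.add_sub_cancel] at hk
  obtain ⟨p, hp⟩ : ∃ p : ℝ, p = (2 : ℝ) ^ M := ⟨_, rfl⟩
  have hp2 : 2 ≤ p := by
    rw [hp]
    calc (2 : ℝ) = 2 ^ 1 := by norm_num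
      _ ≤ 2 ^ M := pow_le_pow_right₀ (by norm_num) hM1
  have hq : (2 : ℝ) ^ (M + 1) = 2 * p := by rw [hp, pow_succ]; ring
  rw [hq, ← hp] at hk
  rw [hq]
  have h1 : (1 : ℝ) ≤ (2 : ℝ) ^ (m * k) := one_le_pow₀ (by norm_num)
  have h2 : (2 : ℝ) ^ (m * k) ≤ p := by
    rw [hp]
    exact pow_le_pow_right₀ (by norm_num) hkM
  refine le_trans ?_ (monoInt A hA p (2 * p - 1) _ _ h1 h2 (by linarith) (by linarith))
  have h3 : (∫ t in p..(2 * p - 1), A.indicator (fun s : ℝ => s⁻¹) t) =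
      ∫ t in p..(2 * p - 1), t⁻¹ := by
    refine intervalIntegral.integral_congr fun t ht => ?_
    rw [uIcc_of_le (by linarith)] at ht
    exact indicator_of_mem (hk t ht.1 ht.2) _
  rw [h3, integral_inv_of_pos (by linarith) (by linarith)]
  refine Real.log_le_log (by norm_num) ?_
  rw [le_div_iff₀ (by linarith)]
  linarith

theorem lgd : LgdStmt := by
  intro al m c g hP hc hg
  have hal := hP.al_pos
  have hm8 : (8 : ℝ) ≤ m := by
    have h1 := hP.m1
    unfold lam at h1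
    have h2 : (0 : ℝ) < 2 * (al + 2) := by linarith
    rw [div_mul_eq_mul_div, one_mul, le_div_iff₀ h2] at h1
    nlinarith
  have hm2 : 2 ≤ m := by
    have : (2 : ℝ) ≤ (m : ℝ) := by linarith
    exact_mod_cast this
  have hlog2 : 0 < Real.log 2 := Real.log_pos (by norm_num)
  have hlog3 : 0 < Real.log (3 / 2) := Real.log_pos (by norm_num)
  have hml : 0 < (m : ℝ) * Real.log 2 := mul_pos (by linarith) hlog2
  refine ⟨c ^ 2 * (2 : ℝ) ^ (-(2 / al)), g * Real.log (3 / 2) / (2 * (m * Real.log 2)),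
    by positivity, by positivity, ?_⟩
  intro B f hf0 hf hs c'' hc'' hcc
  obtain ⟨A, hAd⟩ : ∃ A, A = {t : ℝ | c'' * t ^ (-(2 / al)) ≤ f t ^ 2} := ⟨_, rfl⟩
  have hAm : MeasurableSet (A ∩ Ici 0) := by
    rw [hAd]
    exact meas al c'' f hf
  rw [← hAd]
  -- the good blocks are in `A`
  have hblock : ∀ k : ℕ, c ≤ (2 : ℝ) ^ ((m * (k + 1 : ℕ) : ℝ) / al) * f (tm m (k + 1)) →
      ∀ t : ℝ, (2 : ℝ) ^ (m * (k + 1) - 1) ≤ t → t ≤ (2 : ℝ) ^ (m * (k + 1)) - 1 → t ∈ A := by
    intro k hk t ht1 ht2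
    have ht0 : 0 < t := lt_of_lt_of_le (by positivity) ht1
    have htm : f (tm m (k + 1)) ≤ f t := by
      refine hf (mem_Ici.2 ht0.le) (mem_Ici.2 ?_) ht2
      exact ht0.le.trans ht2
    have h2t : (2 : ℝ) ^ (m * (k + 1)) ≤ 2 * t := by
      have h1 : 1 ≤ m * (k + 1) := Nat.mul_pos (by omega) (by omega)
      obtain ⟨M, hM⟩ : ∃ M, m * (k + 1) = M + 1 := ⟨m * (k + 1) - 1, by omega⟩
      rw [hM, Nat.add_sub_cancel] at ht1
      rw [hM, pow_succ]
      linarith
    have h3 : (2 : ℝ) ^ ((m * (k + 1 : ℕ) : ℝ) / al) ≤ (2 * t) ^ (1 / al) := by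
      have h4 : (2 : ℝ) ^ ((m * (k + 1 : ℕ) : ℝ) / al) = ((2 : ℝ) ^ (m * (k + 1))) ^ (1 / al) := by
        rw [← Real.rpow_natCast, ← Real.rpow_mul (by norm_num)]
        congr 1
        push_cast
        ring
      rw [h4]
      exact Real.rpow_le_rpow (by positivity) h2t (by positivity)
    have h5 : c ≤ (2 * t) ^ (1 / al) * f t := by
      refine hk.trans ?_
      exact mul_le_mul h3 htm (hf0 _) (by positivity)
    have h6 : c ^ 2 ≤ ((2 * t) ^ (1 / al) * f t) ^ 2 := by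
      exact pow_le_pow_left₀ hc.le h5 2
    have h7 : ((2 * t) ^ (1 / al) * f t) ^ 2 = (2 : ℝ) ^ (2 / al) * t ^ (2 / al) * f t ^ 2 := by
      rw [mul_pow, ← Real.rpow_natCast ((2 * t) ^ (1 / al)), ← Real.rpow_mul (by positivity),
        Real.mul_rpow (by norm_num) ht0.le]
      have : 1 / al * ((2 : ℕ) : ℝ) = 2 / al := by
        push_cast
        ring
      rw [this]
    rw [h7] at h6
    rw [hAd]
    show c'' * t ^ (-(2 / al)) ≤ f t ^ 2
    have h8 : 0 < t ^ (2 / al) := Real.rpow_pos_of_pos ht0 _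
    have h9 : (0 : ℝ) < (2 : ℝ) ^ (2 / al) := by positivity
    calc c'' * t ^ (-(2 / al)) ≤ (c ^ 2 * (2 : ℝ) ^ (-(2 / al))) * t ^ (-(2 / al)) :=
          mul_le_mul_of_nonneg_right hcc (Real.rpow_nonneg ht0.le _)
      _ = c ^ 2 / ((2 : ℝ) ^ (2 / al) * t ^ (2 / al)) := by
          rw [Real.rpow_neg (by norm_num), Real.rpow_neg ht0.le]
          field_simp
      _ ≤ f t ^ 2 := by
          rw [div_le_iff₀ (mul_pos h9 h8)]
          linarith
  -- the sum over the blocks
  have hsum : ∀ n : ℕ, Real.log (3 / 2) * (g * ((n : ℝ) + 1) - B - 1) ≤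
      ∫ t in (1 : ℝ)..((2 : ℝ) ^ (m * n)), A.indicator (fun s : ℝ => s⁻¹) t := by
    intro n
    obtain ⟨s, hsn, hsk, hcard⟩ := hs (n + 1)
    have hadj := intervalIntegral.sum_integral_adjacent_intervals
      (f := A.indicator fun s : ℝ => s⁻¹) (μ := volume) (a := fun k : ℕ => (2 : ℝ) ^ (m * k))
      (n := n) (fun k _ => intInd A hAm _ _ (one_le_pow₀ (by norm_num))
        (pow_le_pow_right₀ (by norm_num) (Nat.mul_le_mul_left m (Nat.le_succ k))))
    simp only [mul_zero, pow_zero] at hadj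
    rw [← hadj]
    classical
    have h1 : ∀ k ∈ Finset.range n, (if k + 1 ∈ s then Real.log (3 / 2) else 0) ≤
        ∫ t in ((2 : ℝ) ^ (m * k))..((2 : ℝ) ^ (m * (k + 1))),
          A.indicator (fun s : ℝ => s⁻¹) t := by
      intro k _
      have hle : (2 : ℝ) ^ (m * k) ≤ (2 : ℝ) ^ (m * (k + 1)) :=
        pow_le_pow_right₀ (by norm_num) (Nat.mul_le_mul_left m (Nat.le_succ k))
      split_ifs with h
      · exact block A hAm m k hm2 (hblock k (hsk _ h))
      · refine intervalIntegral.integral_nonneg hle fun t ht => indNonneg A t ?_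
        exact le_trans (by positivity) ht.1
    refine le_trans ?_ (Finset.sum_le_sum h1)
    rw [← Finset.sum_filter, Finset.sum_const, nsmul_eq_mul, mul_comm]
    refine mul_le_mul_of_nonneg_right ?_ hlog3.le
    have h2 : s ⊆ insert 0 (((Finset.range n).filter fun k => k + 1 ∈ s).image (· + 1)) := by
      intro k hk
      rw [Finset.mem_insert]
      rcases Nat.eq_zero_or_pos k with h | h
      · exact Or.inl h
      · refine Or.inr (Finset.mem_image.2 ⟨k - 1, ?_, by omega⟩)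
        rw [Finset.mem_filter, Finset.mem_range]
        have h3 := Finset.mem_range.1 (hsn hk)
        refine ⟨by omega, ?_⟩
        rw [Nat.sub_add_cancel h]
        exact hk
    have h3 := (Finset.card_le_card h2).trans ((Finset.card_insert_le _ _).trans
      (Nat.add_le_add_right Finset.card_image_le 1))
    have h4 : (s.card : ℝ) ≤ (((Finset.range n).filter fun k => k + 1 ∈ s).card : ℝ) + 1 := by
      exact_mod_cast h3
    push_cast at hcard
    linarith
  -- large times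
  unfold LowLog
  have hev : ∀ᶠ T : ℝ in atTop, 2 * (m * Real.log 2) * (B + 1) / g ≤ Real.log T :=
    Real.tendsto_log_atTop.eventually_ge_atTop _
  filter_upwards [hev, eventually_ge_atTop (1 : ℝ)] with T hT1 hT
  obtain ⟨n, hn⟩ : ∃ n : ℕ, n = ⌊Real.log T / (m * Real.log 2)⌋₊ := ⟨_, rfl⟩
  have hlogT : 0 ≤ Real.log T := Real.log_nonneg hT
  have hn1 : (n : ℝ) ≤ Real.log T / (m * Real.log 2) := by
    rw [hn]
    exact Nat.floor_le (by positivity)
  have hn2 : Real.log T / (m * Real.log 2) < n + 1 := by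
    rw [hn]
    exact Nat.lt_floor_add_one _
  have hpow : (2 : ℝ) ^ (m * n) ≤ T := by
    have h1 : Real.log ((2 : ℝ) ^ (m * n)) ≤ Real.log T := by
      rw [Real.log_pow]
      rw [le_div_iff₀ hml] at hn1
      push_cast
      linarith
    exact (Real.log_le_log_iff (by positivity) (by linarith)).1 h1
  have h1 := hsum n
  have h2 := monoInt A hAm 1 ((2 : ℝ) ^ (m * n)) 1 T le_rfl le_rfl (one_le_pow₀ (by norm_num)) hpow
  refine le_trans ?_ (h1.trans h2)
  have h3 : g * (Real.log T / (m * Real.log 2)) ≤ g * (n + 1) :=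
    mul_le_mul_of_nonneg_left hn2.le hg.le
  have h4 : B + 1 ≤ g * Real.log T / (2 * (m * Real.log 2)) := by
    rw [div_le_iff₀ hg] at hT1
    rw [le_div_iff₀ (by positivity)]
    linarith
  have h5 : g * Real.log (3 / 2) / (2 * (m * Real.log 2)) * Real.log T =
      Real.log (3 / 2) * (g * (Real.log T / (m * Real.log 2)) -
        g * Real.log T / (2 * (m * Real.log 2))) := by
    field_simp
    ring
  rw [h5]
  refine mul_le_mul_of_nonneg_left ?_ hlog3.le
  linarith

end Pool.Agent.BEL.H82
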